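import Pool.Agent.H961R3.Smyth.Stmts

open scoped NumberField
open IsDedekindDomain WithZero

set_option autoImplicit false

namespace Pool.Agent.H380R3.SM

open Pool.Agent.H961R3.Smyth

theorem s8 : S8 := by
  intro K _ _ n a hN i c
  classical
  set I : Ideal (𝓞 K) := Ideal.span (a '' {j | j ≠ i}) with hI
  have key : a i ∈ I := by
    by_cases hI0 : I = ⊥
    · -- all other `a j` vanish
      have hz : ∀ j, j ≠ i → a j = 0 := by
        intro j hj
        have : a j ∈ I := Ideal.subset_span ⟨j, hj, rfl⟩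
        rwa [hI0, Ideal.mem_bot] at this
      obtain ⟨p, hp0, hp⟩ := Ring.not_isField_iff_exists_prime.1
        (NumberField.RingOfIntegers.not_isField K)
      set v : HeightOneSpectrum (𝓞 K) := ⟨p, hp, hp0⟩
      obtain ⟨j, hj, hv⟩ := hN v i
      rw [hz j hj] at hv
      simp only [map_zero, le_zero_iff, map_eq_zero] at hv
      have h0 : a i = 0 := by exact_mod_cast hv
      rw [h0]
      exact I.zero_mem
    · rw [← Ideal.span_singleton_le_iff_mem, ← Ideal.dvd_iff_le,
        UniqueFactorizationMonoid.dvd_iff_emultiplicity_le hI0]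
      intro P hP
      set v : HeightOneSpectrum (𝓞 K) := ⟨P, Ideal.isPrime_of_prime hP, hP.ne_zero⟩ with hv
      rw [emultiplicity_le_emultiplicity_iff]
      intro m hm
      obtain ⟨j, hj, hvj⟩ := hN v i
      have h1 : P ^ m ∣ Ideal.span {a j} := by
        refine hm.trans ?_
        rw [Ideal.dvd_iff_le, Ideal.span_singleton_le_iff_mem]
        exact Ideal.subset_span ⟨j, hj, rfl⟩
      have h2 : v.intValuation (a j) ≤ exp (-(m : ℤ)) :=
        (v.intValuation_le_pow_iff_dvd (a j) m).2 h1
      have h3 : v.intValuation (a i) ≤ v.intValuation (a j) := by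
        have := hvj
        rwa [show ((a i : K)) = algebraMap (𝓞 K) K (a i) from rfl,
          show ((a j : K)) = algebraMap (𝓞 K) K (a j) from rfl,
          v.valuation_of_algebraMap, v.valuation_of_algebraMap] at this
      exact (v.intValuation_le_pow_iff_dvd (a i) m).1 (h3.trans h2)
  -- solve the relation
  have key2 : -(a i * c) ∈ I := I.neg_mem (I.mul_mem_right c key)
  rw [hI, show a '' {j | j ≠ i} = Set.range (fun j : {j // j ≠ i} => a j) by
    ext z
    constructor
    · rintro ⟨j, hj, rfl⟩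
      exact ⟨⟨j, hj⟩, rfl⟩
    · rintro ⟨j, rfl⟩
      exact ⟨j.1, j.2, rfl⟩, Ideal.mem_span_range_iff_exists_fun] at key2
  obtain ⟨y, hy⟩ := key2
  refine ⟨fun j => if h : j ≠ i then y ⟨j, h⟩ else c, by simp, ?_⟩
  rw [← Finset.add_sum_erase _ _ (Finset.mem_univ i)]
  have h1 : ∑ j ∈ Finset.univ.erase i, a j * (if h : j ≠ i then y ⟨j, h⟩ else c) =
      ∑ j : {j // j ≠ i}, y j * a j := by
    rw [Finset.sum_subtype (p := fun j => j ≠ i) (Finset.univ.erase i) (by simp)]
    apply Finset.sum_congr rfl
    intro j _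
    rw [dif_pos j.2, mul_comm]
  rw [h1, hy]
  simp

end Pool.Agent.H380R3.SM
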